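import Pool.Agent.SPA.Main1046

/-!
# MP_7a4c99_nt: the order of `log N k` for almost all `k`

Let `G x = sqrt (log x) * log log log x / log log x`. There are `c, C > 0` such that all `k` in `[2, x]`, up to
`B x exp (-c G x)` exceptions, have at least `exp (c G x)` and at most `exp (C G x)` sum = product multisets of
size `k`. The question whether `N k > 2` for all `k > 6324` is not settled.
-/

set_option autoImplicit false

namespace Pool.Agent.Results.MP_7a4c99_nt.AlmostAllSizes

/-- `s` is a multiset of `k` positive integers whose product equals its sum -/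
def IsSP (k : ℕ) (s : Multiset ℕ) : Prop := s.card = k ∧ (∀ a ∈ s, 0 < a) ∧ s.prod = s.sum

/-- the number of sum = product multisets of size `k` -/
noncomputable def N (k : ℕ) : ℕ := {s : Multiset ℕ | IsSP k s}.ncard

/-- For `k ≥ 2` there are finitely many sum = product multisets of size `k`. -/
theorem finite (k : ℕ) (hk : 2 ≤ k) : {s : Multiset ℕ | IsSP k s}.Finite := Pool.Agent.SPM.Sol46.fin hk

/-- `sqrt (log x) * log log log x / log log x` -/
noncomputable def G (x : ℕ) : ℝ :=
  Real.sqrt (Real.log x) * Real.log (Real.log (Real.log x)) / Real.log (Real.log x)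

/-- There are `c, C > 0` and `B` such that for all `x ≥ 16` the inequalities `exp (c G x) ≤ N k ≤ exp (C G x)` hold
for all integers `k` in `[2, x]` but at most `B x exp (-c G x)`. -/
theorem result : ∃ c C B : ℝ, 0 < c ∧ 0 < C ∧ ∀ x : ℕ, 16 ≤ x →
    (((Finset.Icc 2 x).filter (fun k => ¬ (Real.exp (c * G x) ≤ (N k : ℝ) ∧
        (N k : ℝ) ≤ Real.exp (C * G x)))).card : ℝ)
      ≤ B * x * Real.exp (-(c * G x)) :=
  Pool.Agent.SPA.main10

end Pool.Agent.Results.MP_7a4c99_nt.AlmostAllSizes
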